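import Pool.Agent.H810R3.Tub.Lip

set_option autoImplicit false
set_option maxHeartbeats 1000000

/-!
# MP_ac5134: the Kakeya inequality in tube form for Lipschitz translates of bounded multiplicity

Work in `ℝ^n = ℝ^d × ℝ`, `n = d + 1`, with its Euclidean norm (`Space d`), and let `P` be the
paraboloid `{(ω, |ω|²)}`, `|ω| ≤ 1`.  The box dual to the cap at `ω` is `box N (nor ω) f 0`: its long
side `N²` is in the direction of the unit normal `nor ω = (-2ω, 1)/√(1+4|ω|²)` and its other sides `N`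
are in the directions of an arbitrary orthonormal frame `f` of the orthogonal complement.  The boxes
are translated so that their axes pass, up to `K N`, through the points `(N² b(ω), 0)`, at heights at
most `S N²`, where `b` is only assumed to be `L`-Lipschitz on `|ω| < 2` and such that almost every
section map `ω ↦ b ω + t ω` takes almost every value at most `M` times (non-degenerately).  Then the
conjectured comparison with the centred family holds for every `p` in `[1, ∞]` with one constant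
`C (1 + M) (1 + K + L + S)^(n-1) N^ε`.
-/

open MeasureTheory Set Filter Topology ENNReal NNReal Metric

namespace Pool.Agent.Results.MP_ac5134_an.LipschitzTranslates

open Pool.Agent.H810R3.Tub

/-- The caps have centres `ω i` in the closed unit ball, `σ/N`-separated and at least `κ N^d` in
number, and `f i` is an orthonormal frame of the orthogonal complement of the normal at `ω i`. -/
def Caps {d : ℕ} {ι : Type} [Fintype ι] (σ κ N : ℝ) (ω : ι → Vec d) (f : ι → Fin d → Space d) : Prop :=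
  (∀ i, ‖ω i‖ ≤ 1) ∧ (∀ i j, i ≠ j → σ / N ≤ ‖ω i - ω j‖) ∧ κ * N ^ d ≤ (Fintype.card ι : ℝ) ∧
    ∀ i, Orthonormal ℝ (Fin.cons (nor (ω i)) (f i) : Fin (d + 1) → Space d)

/-- The sum of the indicators of the boxes of the caps with centres `a i`. -/
noncomputable def boxSum {d : ℕ} {ι : Type} [Fintype ι] (N : ℝ) (ω : ι → Vec d)
    (f : ι → Fin d → Space d) (a : ι → Space d) (y : Space d) : ℝ :=
  ∑ i, (box N (nor (ω i)) (f i) (a i)).indicator (fun _ => (1 : ℝ)) y

/-- The inequality of Q1 with constant `C`, for all exponents, for the boxes with centres `a i`. -/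
def Ineq {d : ℕ} {ι : Type} [Fintype ι] (C N : ℝ) (ω : ι → Vec d) (f : ι → Fin d → Space d)
    (a : ι → Space d) : Prop :=
  ∀ p : ℝ≥0∞, 1 ≤ p → eLpNorm (boxSum N ω f a) p volume ≤
    ENNReal.ofReal C * eLpNorm (boxSum N ω f 0) p volume

/-- **The Kakeya inequality in tube form, for all `p` in `[1, ∞]`, for Lipschitz translates of bounded
multiplicity.** -/
theorem result (d : ℕ) (hd : 1 ≤ d) (ε σ κ : ℝ) (hε : 0 < ε) (hσ : 0 < σ) (hσ1 : σ ≤ 1) (hκ : 0 < κ) :
    ∃ C : ℝ, 0 < C ∧ ∀ (L K S : ℝ≥0) (M : ℕ) (b : Vec d → Vec d),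
      LipschitzOnWith L b (ball 0 2) → FewPre M b →
      ∀ N : ℝ, 1 ≤ N → ∀ (ι : Type) [Fintype ι] (ω β : ι → Vec d) (s : ι → ℝ)
        (f : ι → Fin d → Space d), Caps σ κ N ω f →
        (∀ i, |s i| ≤ S * N ^ 2) → (∀ i, ‖β i - N ^ 2 • b (ω i)‖ ≤ K * N) →
        Ineq (C * (1 + M) * (1 + K + L + S) ^ d * N ^ ε) N ω f
          (fun i => WithLp.toLp 2 (β i + s i • (-(2 : ℝ) • ω i), s i)) := by
  have hd0 : (0 : ℝ) < d := by exact_mod_cast hd
  have hd1 : (1 : ℝ) ≤ d := by exact_mod_cast hd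
  set η : ℝ := min ε (1 / 2) with hη
  have hη0 : 0 < η := lt_min hε (by norm_num)
  have hηε : η ≤ ε := min_le_left _ _
  have hη2 : η ≤ 1 / 2 := min_le_right _ _
  have hdη : 0 < (d : ℝ) - η := by linarith
  set q : ℝ := ((d : ℝ) + 1) / (d - η) with hq
  have hq1 : 1 < q := by
    rw [hq, lt_div_iff₀ hdη]
    linarith
  have hqc : ((d : ℝ) + 1) / d < q := by
    rw [hq]
    apply div_lt_div_of_pos_left (by positivity) hdη
    linarith
  have hηq : d * q - d - 1 = η * q := by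
    have : q * (d - η) = d + 1 := div_mul_cancel₀ _ hdη.ne'
    linarith
  obtain ⟨E, hE0, hE⟩ := push_lip d hd q hqc σ hσ hσ1
  have hw0 : 0 < wv d := wv_pos d
  set b₀ : ℝ := (1 + (d : ℝ)) ^ (d + 1) * wv d with hb₀
  have hb0 : 0 < b₀ := by positivity
  set C0 : ℝ := max 1 (max (E * b₀ ^ (q - 1) * κ ^ (-(1 / (d : ℝ))))
    (E * κ ^ (-(1 / (d : ℝ))) * 2 ^ (d + 1) / wv d)) with hC0
  have hC1 : 1 ≤ C0 := le_max_left _ _
  have hC2 : E * b₀ ^ (q - 1) * κ ^ (-(1 / (d : ℝ))) ≤ C0 := (le_max_left _ _).trans (le_max_right _ _)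
  have hC3 : E * κ ^ (-(1 / (d : ℝ))) * 2 ^ (d + 1) / wv d ≤ C0 := (le_max_right _ _).trans (le_max_right _ _)
  have hC00 : 0 < C0 := by linarith
  have hq0 : 0 < q := by linarith
  refine ⟨C0 ^ (1 / q), Real.rpow_pos_of_pos hC00 _, ?_⟩
  intro L K S M b hL hM N hN ι _ ω β s f ⟨hω, hsep, hcard, hf⟩ hs hβ p hp
  have hL0 : (0 : ℝ) ≤ L := L.2
  have hK0 : (0 : ℝ) ≤ K := K.2
  have hS0 : (0 : ℝ) ≤ S := S.2
  have hM0 : (0 : ℝ) ≤ M := Nat.cast_nonneg _
  have hN0 : 0 < N := by linarith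
  have hc0 : (0 : ℝ) < (Fintype.card ι : ℝ) := lt_of_lt_of_le (by positivity) hcard
  have hne : Nonempty ι := by
    rw [← Fintype.card_pos_iff]
    exact_mod_cast hc0
  set X : ℝ := (1 + M) * (1 + K + L + S) ^ d with hX
  have hX1 : 1 ≤ X := by
    have h1 : (1 : ℝ) ≤ (1 + K + L + S) ^ d := one_le_pow₀ (by linarith)
    rw [hX]
    nlinarith
  have hX0 : 0 < X := by linarith
  set D : ℝ := C0 ^ (1 / q) * X * N ^ ε with hD
  have hDe : C0 ^ (1 / q) * (1 + M) * (1 + K + L + S) ^ d * N ^ ε = D := by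
    rw [hD, hX]; ring
  have hD1 : 1 ≤ D := by
    have h1 : 1 ≤ C0 ^ (1 / q) := Real.one_le_rpow hC1 (by positivity)
    have h3 : 1 ≤ N ^ ε := Real.one_le_rpow hN hε.le
    calc (1 : ℝ) = 1 * 1 * 1 := by ring
      _ ≤ C0 ^ (1 / q) * X * N ^ ε := by gcongr
  have hDq : D ^ q = C0 * X ^ q * N ^ (ε * q) := by
    rw [hD, Real.mul_rpow (by positivity) (by positivity), Real.mul_rpow (by positivity) (by positivity),
      ← Real.rpow_mul hC00.le, ← Real.rpow_mul hN0.le, one_div_mul_cancel hq0.ne', Real.rpow_one]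
  set Q : ℝ := E * X ^ q * N ^ (d + 2) * (Fintype.card ι : ℝ) ^ (q - 1 / d) with hQ
  have hQ0 : 0 < Q := by positivity
  have hQi : ∫⁻ y, Fb N ω f (fun i => WithLp.toLp 2 (β i + s i • (-(2 : ℝ) • ω i), s i)) y ^ q ≤
      ENNReal.ofReal Q := hE L K S M b hL hM N hN ι ω β s f hω hsep hf hs hβ
  rw [hDe]
  refine compare d hN hq1 hQ0 hD1 ω f hf _ hQi ?_ ?_ p hp
  · rw [hDq]
    exact arith1 hd0 hE0 (by positivity) hq1 hηq hηε hN hκ hcard hb0 hC2
  · rw [hDq]
    exact arith2 hd0 hE0 (by positivity) hq1 hε hN hκ hcard hw0 hC3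

end Pool.Agent.Results.MP_ac5134_an.LipschitzTranslates
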