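import Pool.Agent.H810R3.Tub.Per4

set_option autoImplicit false
set_option maxHeartbeats 1000000

/-!
# MP_ac5134: the Kakeya inequality in tube form for small generic perturbations of arbitrary translates

Work in `ℝ^n = ℝ^(m+1) × ℝ`, `n = m + 2`, with its Euclidean norm (`Space (m+1)`), and let `P` be the
paraboloid `{(ω, |ω|²)}`, `|ω| ≤ 1`.  The box dual to the cap at `ω` is `box N (nor ω) f 0`: its long
side `N²` is in the direction of the unit normal `nor ω = (-2ω, 1)/√(1+4|ω|²)` and its other sides `N`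
are in the directions of an arbitrary orthonormal frame `f` of the orthogonal complement.  The centres
`a i` of the translated boxes are arbitrary; the box of the cap at `ω` is displaced by
`lin N u ω = N² (0, u_1 ω_2, …, u_m ω_(m+1), 0)` with `u` in `[0, τ]^m`, `m = n - 2`.  Then, for all `u`
outside a set of measure `η τ^m`, the conjectured comparison with the centred family holds for every
`p` in `[1, ∞]` with the constant `C (η τ^(n-1))^(-1/2) (1 + log N)^((n-1)/2)`.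
-/

open MeasureTheory Set Filter Topology ENNReal NNReal Metric

namespace Pool.Agent.Results.MP_ac5134_an.PerturbedTranslates

open Pool.Agent.H810R3.Tub

/-- The caps have centres `ω i` in the closed unit ball, `σ/N`-separated and at least `κ N^d` in
number, and `f i` is an orthonormal frame of the orthogonal complement of the normal at `ω i`. -/
def Caps {d : ℕ} {ι : Type} [Fintype ι] (σ κ N : ℝ) (ω : ι → Vec d) (f : ι → Fin d → Space d) : Prop :=
  (∀ i, ‖ω i‖ ≤ 1) ∧ (∀ i j, i ≠ j → σ / N ≤ ‖ω i - ω j‖) ∧ κ * N ^ d ≤ (Fintype.card ι : ℝ) ∧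
    ∀ i, Orthonormal ℝ (Fin.cons (nor (ω i)) (f i) : Fin (d + 1) → Space d)

/-- The sum of the indicators of the boxes of the caps with centres `a i`. -/
noncomputable def boxSum {d : ℕ} {ι : Type} [Fintype ι] (N : ℝ) (ω : ι → Vec d)
    (f : ι → Fin d → Space d) (a : ι → Space d) (y : Space d) : ℝ :=
  ∑ i, (box N (nor (ω i)) (f i) (a i)).indicator (fun _ => (1 : ℝ)) y

/-- The inequality of Q1 with constant `C`, for all exponents, for the boxes with centres `a i`. -/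
def Ineq {d : ℕ} {ι : Type} [Fintype ι] (C N : ℝ) (ω : ι → Vec d) (f : ι → Fin d → Space d)
    (a : ι → Space d) : Prop :=
  ∀ p : ℝ≥0∞, 1 ≤ p → eLpNorm (boxSum N ω f a) p volume ≤
    ENNReal.ofReal C * eLpNorm (boxSum N ω f 0) p volume

/-- The centres after the displacements with parameter `u`. -/
noncomputable def moved {m : ℕ} {ι : Type} (N : ℝ) (ω : ι → Vec (m + 1)) (a : ι → Space (m + 1))
    (u : Fin m → ℝ) (i : ι) : Space (m + 1) := a i + lin N u (ω i)

/-- **The Kakeya inequality in tube form for generic linear perturbations of arbitrary translates.** -/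
theorem result (m : ℕ) (σ κ : ℝ) (hσ : 0 < σ) (hσ1 : σ ≤ 1) (hκ : 0 < κ) :
    ∃ C : ℝ, 0 < C ∧ ∀ N : ℝ, 1 ≤ N → ∀ (ι : Type) [Fintype ι] (ω : ι → Vec (m + 1))
      (f : ι → Fin (m + 1) → Space (m + 1)) (a : ι → Space (m + 1)), Caps σ κ N ω f →
      ∀ τ η : ℝ, 0 < τ → τ ≤ 1 → 0 < η → η ≤ 1 →
        volume {u : Fin m → ℝ | (∀ k, 0 ≤ u k ∧ u k ≤ τ) ∧
          ¬ Ineq (C * √((1 + Real.log N) ^ (m + 1) / (η * τ ^ (m + 1)))) N ω f (moved N ω a u)}
        ≤ ENNReal.ofReal (η * τ ^ m) := by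
  obtain ⟨A₀, hA0, hA⟩ := total m σ hσ hσ1
  have hw0 : 0 < wv (m + 1) := wv_pos (m + 1)
  set b₀ : ℝ := (1 + ((m + 1 : ℕ) : ℝ)) ^ (m + 1 + 1) * wv (m + 1) with hb₀
  have hb0 : 0 < b₀ := by positivity
  set C : ℝ := 1 + A₀ * b₀ / κ + A₀ * 2 ^ (m + 2) / (κ * wv (m + 1)) with hC
  have hC1 : 1 ≤ C := by
    have h1 : 0 ≤ A₀ * b₀ / κ := by positivity
    have h2 : 0 ≤ A₀ * 2 ^ (m + 2) / (κ * wv (m + 1)) := by positivity
    linarith
  have hCsq : C ≤ C ^ 2 := by nlinarith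
  have hCb : A₀ * b₀ ≤ C ^ 2 * κ := by
    rw [← div_le_iff₀ hκ]
    have h2 : 0 ≤ A₀ * 2 ^ (m + 2) / (κ * wv (m + 1)) := by positivity
    linarith
  have hCw : A₀ * 2 ^ (m + 2) ≤ C ^ 2 * (κ * wv (m + 1)) := by
    rw [← div_le_iff₀ (by positivity)]
    have h2 : 0 ≤ A₀ * b₀ / κ := by positivity
    linarith
  refine ⟨C, by linarith, ?_⟩
  intro N hN ι _ ω f a ⟨hω, hsep, hcard, hf⟩ τ η hτ hτ1 hη hη1
  have hN0 : 0 < N := by linarith
  have hc0 : (0 : ℝ) < (Fintype.card ι : ℝ) := lt_of_lt_of_le (by positivity) hcard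
  have hne : Nonempty ι := by
    rw [← Fintype.card_pos_iff]
    exact_mod_cast hc0
  set c : ℝ := (Fintype.card ι : ℝ) with hc
  have hl1 : 1 ≤ 1 + Real.log N := by
    have := Real.log_nonneg hN
    linarith
  set X : ℝ := (1 + Real.log N) ^ (m + 1) / (η * τ ^ (m + 1)) with hX
  have hτm : τ ^ (m + 1) ≤ 1 := pow_le_one₀ hτ.le hτ1
  have hτm0 : 0 < τ ^ (m + 1) := by positivity
  have hX1 : 1 ≤ X := by
    rw [hX, le_div_iff₀ (by positivity), one_mul]
    have h1 : η * τ ^ (m + 1) ≤ 1 := by nlinarith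
    exact h1.trans (one_le_pow₀ hl1)
  have hX0 : 0 < X := by linarith
  set Q : ℝ := A₀ * c * N ^ (m + 3) * X with hQ
  have hQ0 : 0 < Q := by positivity
  set D : ℝ := C * √X with hD
  have hD1 : 1 ≤ D := by
    have : 1 ≤ √X := Real.one_le_sqrt.2 hX1
    nlinarith
  have hD2 : D ^ 2 = C ^ 2 * X := by
    rw [hD, mul_pow, Real.sq_sqrt hX0.le]
  have hDq : D ^ (2 : ℝ) = C ^ 2 * X := by rw [Real.rpow_two, hD2]
  set g : (Fin m → ℝ) → ℝ≥0∞ := fun u => ∫⁻ y, Fb N ω f (fun i => a i + lin N u (ω i)) y ^ (2 : ℝ) with hg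
  have hgm : Measurable g := sq_meas N ω f a
  -- good parameters
  have hgood : ∀ u : Fin m → ℝ, g u ≤ ENNReal.ofReal Q → ∀ p : ℝ≥0∞, 1 ≤ p →
      eLpNorm (fun y : Space (m + 1) => ∑ i,
        (box N (nor (ω i)) (f i) (a i + lin N u (ω i))).indicator (fun _ => (1 : ℝ)) y) p volume ≤
      ENNReal.ofReal D * eLpNorm (fun y : Space (m + 1) => ∑ i,
              (box N (nor (ω i)) (f i) 0).indicator (fun _ => (1 : ℝ)) y) p volume := by
    intro u hu p hp
    refine compare (m + 1) hN (q := 2) (by norm_num) hQ0 hD1 ω f hf (fun i => a i + lin N u (ω i)) hu ?_ ?_ p hp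
    · have e1 : (2 : ℝ) - 1 = 1 := by norm_num
      rw [e1, Real.rpow_one, hDq, Real.rpow_two]
      have h1 : A₀ * b₀ * N ^ (3 * m + 7) ≤ C ^ 2 * c * N ^ (2 * m + 6) := by
        calc A₀ * b₀ * N ^ (3 * m + 7) ≤ C ^ 2 * κ * N ^ (3 * m + 7) :=
              mul_le_mul_of_nonneg_right hCb (by positivity)
          _ = C ^ 2 * (κ * N ^ (m + 1)) * N ^ (2 * m + 6) := by ring
          _ ≤ C ^ 2 * c * N ^ (2 * m + 6) := by gcongr
      calc Q * ((1 + ((m + 1 : ℕ) : ℝ)) ^ (m + 1 + 1) * wv (m + 1) * N ^ (2 * (m + 1 + 1)))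
          = (c * X) * (A₀ * b₀ * N ^ (3 * m + 7)) := by
            rw [hQ, hb₀]; ring
        _ ≤ (c * X) * (C ^ 2 * c * N ^ (2 * m + 6)) := mul_le_mul_of_nonneg_left h1 (by positivity)
        _ = C ^ 2 * X * (c * N ^ (m + 1 + 2)) ^ 2 := by ring
    · rw [hDq, Real.rpow_two]
      have h1 : A₀ * N ^ (m + 3) * 2 ^ (m + 2) ≤ C ^ 2 * (c * N ^ (m + 2) * wv (m + 1)) := by
        calc A₀ * N ^ (m + 3) * 2 ^ (m + 2) = (A₀ * 2 ^ (m + 2)) * N ^ (m + 3) := by ring
          _ ≤ (C ^ 2 * (κ * wv (m + 1))) * N ^ (2 * m + 3) :=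
              mul_le_mul hCw (pow_le_pow_right₀ hN (by omega)) (by positivity) (by positivity)
          _ = C ^ 2 * ((κ * N ^ (m + 1)) * N ^ (m + 2) * wv (m + 1)) := by ring
          _ ≤ _ := by gcongr
      have h2 : A₀ * N ^ (m + 3) ≤ C ^ 2 * (c * (N / 2) ^ (m + 2) * wv (m + 1)) := by
        have e : C ^ 2 * (c * (N / 2) ^ (m + 2) * wv (m + 1)) =
            C ^ 2 * (c * N ^ (m + 2) * wv (m + 1)) / 2 ^ (m + 2) := by
          rw [div_pow]; ring
        rw [e, le_div_iff₀ (by positivity)]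
        exact h1
      calc Q = (c * X) * (A₀ * N ^ (m + 3)) := by rw [hQ]; ring
        _ ≤ (c * X) * (C ^ 2 * (c * (N / 2) ^ (m + 2) * wv (m + 1))) :=
            mul_le_mul_of_nonneg_left h2 (by positivity)
        _ = C ^ 2 * X * (c ^ 2 * ((N / 2) ^ (m + 1 + 1) * wv (m + 1))) := by ring
  -- the exceptional set
  have hint : ∫⁻ u in Set.univ.pi (fun _ : Fin m => Icc (0 : ℝ) τ), g u ≤
      ENNReal.ofReal (η * τ ^ m) * ENNReal.ofReal Q := by
    refine (hA N hN ι ω f a hω hsep hf τ hτ hτ1).trans (le_of_eq ?_)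
    rw [← ENNReal.ofReal_mul (by positivity)]
    congr 1
    rw [hQ, hX]
    field_simp
    exact hc.symm
  have hmar := mul_meas_ge_le_lintegral (μ := volume.restrict (Set.univ.pi (fun _ : Fin m => Icc (0 : ℝ) τ)))
    hgm (ENNReal.ofReal Q)
  have hQe : ENNReal.ofReal Q ≠ 0 := (ENNReal.ofReal_pos.2 hQ0).ne'
  have h1 : volume.restrict (Set.univ.pi (fun _ : Fin m => Icc (0 : ℝ) τ)) {u | ENNReal.ofReal Q ≤ g u} ≤
      ENNReal.ofReal (η * τ ^ m) := by
    have h2 := hmar.trans hint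
    rw [mul_comm] at h2
    exact (ENNReal.mul_le_mul_iff_left hQe ENNReal.ofReal_ne_top).1 h2
  refine le_trans ?_ h1
  refine le_trans (measure_mono ?_) (Measure.le_restrict_apply _ _)
  rintro u ⟨hu1, hup'⟩
  unfold Ineq at hup'
  push Not at hup'
  obtain ⟨p, hp, hup⟩ := hup'
  refine ⟨?_, fun k _ => ⟨(hu1 k).1, (hu1 k).2⟩⟩
  by_contra hcon
  have hcon' : g u ≤ ENNReal.ofReal Q := (not_le.1 hcon).le
  exact absurd (hgood u hcon' p hp) (not_le.2 hup)

end Pool.Agent.Results.MP_ac5134_an.PerturbedTranslates
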