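import Pool.Agent.H810R3.Tub.Compare

set_option autoImplicit false
set_option maxHeartbeats 1000000

/-!
# MP_ac5134: the Kakeya inequality in tube form for translates depending smoothly on the cap

Work in `ℝ^n = ℝ^d × ℝ`, `n = d + 1`, with its Euclidean norm (`Space d`), and let `P` be the
paraboloid `{(ω, |ω|²)}`, `|ω| ≤ 1`.  The box dual to the cap at `ω` is `box N (nor ω) f 0`: its long
side `N²` is in the direction of the unit normal `nor ω = (-2ω, 1)/√(1+4|ω|²)` and its other sides `N`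
are in the directions of an arbitrary orthonormal frame `f` of the orthogonal complement.  The boxes
are translated so that their axes pass, up to `K N`, through the points `(N² b(ω), 0)` for a map `b` of
class `C^(k+1)`, `k + 1 ≥ 4/ε`, with derivatives of order at most `k + 1` bounded by `A` on `|ω| ≤ 1`,
at heights at most `S N²`.  Then the conjectured comparison with the centred family holds for every
`p` in `[1, ∞]` with one constant `C (1 + K + A + S)^(n-1) N^ε`.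
-/

open MeasureTheory Set Filter Topology ENNReal NNReal Metric

namespace Pool.Agent.Results.MP_ac5134_an.SmoothTranslates

open Pool.Agent.H810R3.Tub

/-- The `q`-th moment for `C^(k+1)` families. -/
theorem moment (d : ℕ) (hd : 1 ≤ d) (q : ℝ) (hq : ((d : ℝ) + 1) / d < q) (k : ℕ) (σ : ℝ) (hσ : 0 < σ)
    (hσ1 : σ ≤ 1) :
    ∃ E : ℝ, 0 < E ∧ ∀ (A K S : ℝ≥0) (b : Vec d → Vec d),
      ContDiff ℝ (k + 1 : ℕ) b → (∀ j ≤ k + 1, ∀ v, ‖v‖ ≤ 1 → ‖iteratedFDeriv ℝ j b v‖ ≤ A) →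
      ∀ N : ℝ, 1 ≤ N → ∀ (ι : Type) [Fintype ι] [Nonempty ι] (ω β : ι → Vec d) (s : ι → ℝ)
        (f : ι → Fin d → Space d),
        (∀ i, ‖ω i‖ ≤ 1) → (∀ i j, i ≠ j → σ / N ≤ ‖ω i - ω j‖) →
        (∀ i, Orthonormal ℝ (Fin.cons (nor (ω i)) (f i) : Fin (d + 1) → Space d)) →
        (∀ i, |s i| ≤ S * N ^ 2) → (∀ i, ‖β i - N ^ 2 • b (ω i)‖ ≤ K * N) →
        ∫⁻ y, Fb N ω f (fun i => WithLp.toLp 2 (β i + s i • (-(2 : ℝ) • ω i), s i)) y ^ q
          ≤ ENNReal.ofReal ((E * ((1 + K + A + S : ℝ) ^ d) ^ q * N ^ (d + 2) *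
              (Fintype.card ι : ℝ) ^ (q - 1 / d)) * N ^ (d * (q - 1) / ((k : ℝ) + 1))) := by
  classical
  obtain ⟨E, hE0, hE⟩ := push d hd q hq k σ hσ hσ1
  have hd0 : (0 : ℝ) < d := by exact_mod_cast hd
  have hd1 : (1 : ℝ) ≤ d := by exact_mod_cast hd
  have hq0 : 0 < q := lt_trans (by positivity) hq
  have hdq : (d : ℝ) + 1 < q * d := by rwa [div_lt_iff₀ hd0] at hq
  have hq1 : 1 < q := by nlinarith
  have hlc0 : (0 : ℝ) ≤ lc k := (lc k).2
  refine ⟨E * ((1 + (d : ℝ) ^ (k + 1) + lc k) ^ d) ^ q * (5 ^ d) ^ (q - 1), by positivity, ?_⟩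
  intro A K S b hb hA N hN ι _ _ ω β s f hω hsep hf hs hβ
  have hA0 : (0 : ℝ) ≤ A := A.2
  have hK0 : (0 : ℝ) ≤ K := K.2
  have hS0 : (0 : ℝ) ≤ S := S.2
  have hN0 : 0 < N := by linarith
  have hk0 : (0 : ℝ) < (k : ℝ) + 1 := by positivity
  set ρ : ℝ := N ^ (-(1 / ((k : ℝ) + 1))) with hρ
  have hρ0 : 0 < ρ := Real.rpow_pos_of_pos hN0 _
  have hρ1 : ρ ≤ 1 := Real.rpow_le_one_of_one_le_of_nonpos hN (by
    have : 0 < 1 / ((k : ℝ) + 1) := by positivity
    linarith)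
  have hρk : ρ ^ (k + 1) = N⁻¹ := by
    rw [hρ, ← Real.rpow_natCast, ← Real.rpow_mul hN0.le, ← Real.rpow_neg_one]
    congr 1
    push_cast
    field_simp
  set c : ℝ := (Fintype.card ι : ℝ) with hc
  have hc0 : 0 < c := by
    have h1 : (0 : ℝ) < (Fintype.card ι : ℝ) := by
      have := Fintype.card_pos (α := ι)
      exact_mod_cast this
    exact h1
  set cl : ι → Fin d → ℤ := fun i => cell ρ (ω i) with hcl
  set I : Finset (Fin d → ℤ) := Finset.univ.image cl with hI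
  set a : ι → Space d := fun i => WithLp.toLp 2 (β i + s i • (-(2 : ℝ) • ω i), s i) with ha
  set K' : ℝ≥0 := K + A * d ^ (k + 1) with hK'
  set Y : ℝ := ((1 + K' + (A * lc k : ℝ≥0) + S : ℝ) ^ d) ^ q with hY
  have hY0 : 0 ≤ Y := by positivity
  obtain ⟨G, hG⟩ : ∃ G : (Fin d → ℤ) → Space d → ℝ≥0∞, ∀ κ, G κ =
      fun y => ∑ i ∈ Finset.univ.filter (fun i => cl i = κ),
        (box N (nor (ω i)) (f i) (a i)).indicator (fun _ => (1 : ℝ≥0∞)) y := ⟨_, fun _ => rfl⟩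
  have hGm : ∀ κ, Measurable (G κ) := fun κ => by
    rw [hG κ]
    apply Finset.measurable_fun_sum
    intro i _
    exact measurable_const.indicator (box_closed _ _ _ _).measurableSet
  obtain ⟨n, hn⟩ : ∃ n : (Fin d → ℤ) → ℝ, ∀ κ, n κ = ((Finset.univ.filter (fun i => cl i = κ)).card : ℝ) :=
    ⟨_, fun _ => rfl⟩
  -- one cell
  have hcell : ∀ κ ∈ I, ∫⁻ y, G κ y ^ q ≤ ENNReal.ofReal (E * Y * N ^ (d + 2) * n κ ^ (q - 1 / d)) := by
    intro κ hκ
    obtain ⟨i₀, _, hi₀⟩ := Finset.mem_image.1 hκ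
    set w := ω i₀ with hw
    have hw1 : ‖w‖ ≤ 1 := hω i₀
    have : Nonempty {i // cl i = κ} := ⟨⟨i₀, hi₀⟩⟩
    have key := hE (A * lc k) K' S (tpol b k w) (tpol_deg b k w) (tpol_lip hA hw1)
      N hN {i // cl i = κ} (fun i => ω i.1) (fun i => β i.1) (fun i => s i.1) (fun i => f i.1)
      (fun i => hω i.1) (fun i j hij => hsep i.1 j.1 (fun h => hij (Subtype.ext h))) (fun i => hf i.1)
      (fun i => hs i.1) (by
        intro i
        have h1 : ‖ω i.1 - w‖ ≤ d * ρ := cell_close hρ0 (i.2.trans hi₀.symm)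
        have h2 := taylor hb hA (hω i.1) hw1
        calc ‖β i.1 - N ^ 2 • pmap (tpol b k w) (ω i.1)‖
            = ‖(β i.1 - N ^ 2 • b (ω i.1)) + N ^ 2 • (b (ω i.1) - pmap (tpol b k w) (ω i.1))‖ := by
              congr 1
              rw [smul_sub]; abel
          _ ≤ ‖β i.1 - N ^ 2 • b (ω i.1)‖ + ‖N ^ 2 • (b (ω i.1) - pmap (tpol b k w) (ω i.1))‖ := norm_add_le _ _
          _ ≤ K * N + N ^ 2 * (A * (d * ρ) ^ (k + 1)) := by
              refine add_le_add (hβ i.1) ?_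
              rw [norm_smul, Real.norm_of_nonneg (by positivity)]
              apply mul_le_mul_of_nonneg_left _ (by positivity)
              refine h2.trans ?_
              exact mul_le_mul_of_nonneg_left (pow_le_pow_left₀ (norm_nonneg _) h1 _) hA0
          _ = (K' : ℝ) * N := by
              rw [mul_pow, hρk, hK']
              push_cast
              field_simp)
    have e1 : ∀ y, G κ y = Fb N (fun i : {i // cl i = κ} => ω i.1) (fun i => f i.1)
        (fun i : {i // cl i = κ} => WithLp.toLp 2 (β i.1 + s i.1 • (-(2 : ℝ) • ω i.1), s i.1)) y := by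
      intro y
      rw [hG κ]
      exact Finset.sum_subtype _ (by simp) (fun i => (box N (nor (ω i)) (f i) (a i)).indicator
        (fun _ => (1 : ℝ≥0∞)) y)
    have e2 : n κ = (Fintype.card {i // cl i = κ} : ℝ) := by
      rw [hn κ, Fintype.card_subtype]
    rw [e2]
    refine le_trans (le_of_eq (lintegral_congr fun y => by rw [e1])) key
  have hsum : ∀ y, Fb N ω f a y = ∑ κ ∈ I, G κ y := by
    intro y
    simp only [hG]
    exact (Finset.sum_fiberwise_of_maps_to (fun i hi => Finset.mem_image_of_mem cl hi)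
      (fun i => (box N (nor (ω i)) (f i) (a i)).indicator (fun _ => (1 : ℝ≥0∞)) y)).symm
  have hns : ∑ κ ∈ I, n κ = c := by
    simp only [hn]
    rw [← Nat.cast_sum, hc]
    congr 1
    exact (Finset.card_eq_sum_card_fiberwise (fun i hi => Finset.mem_coe.2 (Finset.mem_image_of_mem cl hi))).symm
  have hn0 : ∀ κ, 0 ≤ n κ := fun κ => by rw [hn]; exact Nat.cast_nonneg _
  have hcard : (I.card : ℝ) ≤ (5 / ρ) ^ d := cell_card hρ0 hρ1 ω hω
  have hm1 : 0 ≤ q - 1 / d - 1 := by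
    have h1 : 1 / (d : ℝ) ≤ q - 1 := by
      rw [div_le_iff₀ hd0]
      nlinarith
    linarith
  have hnpow : ∑ κ ∈ I, n κ ^ (q - 1 / d) ≤ c ^ (q - 1 / d) := by
    have h1 : ∀ κ ∈ I, n κ ^ (q - 1 / d) ≤ n κ * c ^ (q - 1 / d - 1) := by
      intro κ hκ
      have hle : n κ ≤ c := by
        rw [← hns]
        exact Finset.single_le_sum (f := n) (fun κ _ => hn0 κ) hκ
      have e : n κ ^ (q - 1 / d) = n κ * n κ ^ (q - 1 / d - 1) := by
        conv_lhs => rw [show q - 1 / d = 1 + (q - 1 / d - 1) by ring]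
        rw [Real.rpow_add_of_nonneg (hn0 κ) zero_le_one hm1, Real.rpow_one]
      rw [e]
      exact mul_le_mul_of_nonneg_left (Real.rpow_le_rpow (hn0 κ) hle hm1) (hn0 κ)
    calc ∑ κ ∈ I, n κ ^ (q - 1 / d) ≤ ∑ κ ∈ I, n κ * c ^ (q - 1 / d - 1) := Finset.sum_le_sum h1
      _ = c * c ^ (q - 1 / d - 1) := by rw [← Finset.sum_mul, hns]
      _ = c ^ (q - 1 / d) := by
          conv_rhs => rw [show q - 1 / d = 1 + (q - 1 / d - 1) by ring]
          rw [Real.rpow_add hc0, Real.rpow_one]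
  have hJ : ((5 / ρ) ^ d) ^ (q - 1) = (5 ^ d) ^ (q - 1) * N ^ (d * (q - 1) / ((k : ℝ) + 1)) := by
    rw [div_pow, Real.div_rpow (by positivity) (by positivity), ← Real.rpow_natCast ρ, hρ,
      ← Real.rpow_mul hN0.le, ← Real.rpow_mul hN0.le, div_eq_mul_inv, ← Real.rpow_neg hN0.le]
    congr 2
    field_simp
  calc ∫⁻ y, Fb N ω f a y ^ q
      ≤ ∫⁻ y, (I.card : ℝ≥0∞) ^ (q - 1) * ∑ κ ∈ I, G κ y ^ q := by
        refine lintegral_mono fun y => ?_
        simp only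
        rw [hsum y]
        exact ENNReal.rpow_sum_le_const_mul_sum_rpow I (fun κ => G κ y) hq1.le
    _ = (I.card : ℝ≥0∞) ^ (q - 1) * ∑ κ ∈ I, ∫⁻ y, G κ y ^ q := by
        rw [lintegral_const_mul' _ _ (ENNReal.rpow_ne_top_of_nonneg (by linarith) (ENNReal.natCast_ne_top _)),
          lintegral_finsetSum _ (fun κ _ => (hGm κ).pow_const _)]
    _ ≤ (ENNReal.ofReal ((5 / ρ) ^ d)) ^ (q - 1) *
          ∑ κ ∈ I, ENNReal.ofReal (E * Y * N ^ (d + 2) * n κ ^ (q - 1 / d)) := by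
        apply mul_le_mul'
        · apply ENNReal.rpow_le_rpow _ (by linarith)
          rw [← ENNReal.ofReal_natCast]
          exact ENNReal.ofReal_le_ofReal hcard
        · exact Finset.sum_le_sum hcell
    _ = ENNReal.ofReal (((5 / ρ) ^ d) ^ (q - 1) * (E * Y * N ^ (d + 2) * ∑ κ ∈ I, n κ ^ (q - 1 / d))) := by
        rw [ENNReal.ofReal_rpow_of_pos (by positivity),
          ← ENNReal.ofReal_sum_of_nonneg (fun κ _ => by have := hn0 κ; positivity), ← Finset.mul_sum,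
          ← ENNReal.ofReal_mul (by positivity)]
    _ ≤ ENNReal.ofReal ((E * ((1 + (d : ℝ) ^ (k + 1) + lc k) ^ d) ^ q * (5 ^ d) ^ (q - 1) *
          ((1 + K + A + S : ℝ) ^ d) ^ q * N ^ (d + 2) * c ^ (q - 1 / d)) *
          N ^ (d * (q - 1) / ((k : ℝ) + 1))) := by
        apply ENNReal.ofReal_le_ofReal
        rw [hJ]
        have hYle : Y ≤ ((1 + (d : ℝ) ^ (k + 1) + lc k) ^ d) ^ q * ((1 + K + A + S : ℝ) ^ d) ^ q := by
          rw [hY, ← Real.mul_rpow (by positivity) (by positivity), ← mul_pow]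
          apply Real.rpow_le_rpow (by positivity) _ hq0.le
          apply pow_le_pow_left₀ (by positivity)
          rw [hK']
          push_cast
          have h1 : (0 : ℝ) ≤ (d : ℝ) ^ (k + 1) := by positivity
          nlinarith [mul_nonneg h1 hK0, mul_nonneg h1 hS0, mul_nonneg hlc0 hK0, mul_nonneg hlc0 hS0]
        calc (5 ^ d) ^ (q - 1) * N ^ (d * (q - 1) / ((k : ℝ) + 1)) *
              (E * Y * N ^ (d + 2) * ∑ κ ∈ I, n κ ^ (q - 1 / d))
            ≤ (5 ^ d) ^ (q - 1) * N ^ (d * (q - 1) / ((k : ℝ) + 1)) *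
              (E * (((1 + (d : ℝ) ^ (k + 1) + lc k) ^ d) ^ q * ((1 + K + A + S : ℝ) ^ d) ^ q) * N ^ (d + 2) *
                c ^ (q - 1 / d)) := by
              have h2 : 0 ≤ ∑ κ ∈ I, n κ ^ (q - 1 / d) :=
                Finset.sum_nonneg fun κ _ => Real.rpow_nonneg (hn0 κ) _
              gcongr
          _ = _ := by ring

/-- **The Kakeya inequality in tube form, for all `p` in `[1, ∞]`, for translates depending smoothly
on the cap.**  For every dimension `n = d + 1 ≥ 2`, `ε > 0` and `k + 1 ≥ 4/ε` there is a constant `C`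
(depending also on the separation constant `σ` and on the density constant `κ` of the caps) such that
the norm of the sum of the translated boxes is at most `C (1 + K + A + S)^(n-1) N^ε` times the norm of
the sum of the centred boxes. -/
theorem result (d : ℕ) (hd : 1 ≤ d) (k : ℕ) (ε σ κ : ℝ) (hε : 0 < ε) (hk : 4 / ε ≤ (k : ℝ) + 1)
    (hσ : 0 < σ) (hσ1 : σ ≤ 1) (hκ : 0 < κ) :
    ∃ C : ℝ, 0 < C ∧ ∀ (A K S : ℝ≥0) (b : Vec d → Vec d),
      ContDiff ℝ (k + 1 : ℕ) b → (∀ j ≤ k + 1, ∀ v, ‖v‖ ≤ 1 → ‖iteratedFDeriv ℝ j b v‖ ≤ A) →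
      ∀ N : ℝ, 1 ≤ N → ∀ (ι : Type) [Fintype ι] (ω β : ι → Vec d) (s : ι → ℝ)
        (f : ι → Fin d → Space d),
        (∀ i, ‖ω i‖ ≤ 1) → (∀ i j, i ≠ j → σ / N ≤ ‖ω i - ω j‖) →
        κ * N ^ d ≤ (Fintype.card ι : ℝ) →
        (∀ i, Orthonormal ℝ (Fin.cons (nor (ω i)) (f i) : Fin (d + 1) → Space d)) →
        (∀ i, |s i| ≤ S * N ^ 2) → (∀ i, ‖β i - N ^ 2 • b (ω i)‖ ≤ K * N) →
        ∀ p : ℝ≥0∞, 1 ≤ p →
        eLpNorm (fun y : Space d => ∑ i, (box N (nor (ω i)) (f i)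
            (WithLp.toLp 2 (β i + s i • (-(2 : ℝ) • ω i), s i))).indicator (fun _ => (1 : ℝ)) y) p volume
          ≤ ENNReal.ofReal (C * (1 + K + A + S : ℝ) ^ d * N ^ ε) *
            eLpNorm (fun y : Space d => ∑ i,
              (box N (nor (ω i)) (f i) 0).indicator (fun _ => (1 : ℝ)) y) p volume := by
  have hd0 : (0 : ℝ) < d := by exact_mod_cast hd
  have hd1 : (1 : ℝ) ≤ d := by exact_mod_cast hd
  set η : ℝ := min (ε / 2) (1 / 2) with hη
  have hη0 : 0 < η := lt_min (by linarith) (by norm_num)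
  have hηε : η ≤ ε / 2 := min_le_left _ _
  have hη2 : η ≤ 1 / 2 := min_le_right _ _
  have hdη : 0 < (d : ℝ) - η := by linarith
  set q : ℝ := ((d : ℝ) + 1) / (d - η) with hq
  have hq1 : 1 < q := by
    rw [hq, lt_div_iff₀ hdη]
    linarith
  have hqc : ((d : ℝ) + 1) / d < q := by
    rw [hq]
    apply div_lt_div_of_pos_left (by positivity) hdη
    linarith
  have hηq : d * q - d - 1 = η * q := by
    have : q * (d - η) = d + 1 := div_mul_cancel₀ _ hdη.ne'
    linarith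
  obtain ⟨E, hE0, hE⟩ := moment d hd q hqc k σ hσ hσ1
  have hw0 : 0 < wv d := wv_pos d
  set b₀ : ℝ := (1 + (d : ℝ)) ^ (d + 1) * wv d with hb₀
  have hb0 : 0 < b₀ := by positivity
  set C0 : ℝ := max 1 (max (E * b₀ ^ (q - 1) * κ ^ (-(1 / (d : ℝ))))
    (E * κ ^ (-(1 / (d : ℝ))) * 2 ^ (d + 1) / wv d)) with hC0
  have hC1 : 1 ≤ C0 := le_max_left _ _
  have hC2 : E * b₀ ^ (q - 1) * κ ^ (-(1 / (d : ℝ))) ≤ C0 := (le_max_left _ _).trans (le_max_right _ _)
  have hC3 : E * κ ^ (-(1 / (d : ℝ))) * 2 ^ (d + 1) / wv d ≤ C0 := (le_max_right _ _).trans (le_max_right _ _)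
  have hC00 : 0 < C0 := by linarith
  have hq0 : 0 < q := by linarith
  refine ⟨C0 ^ (1 / q), Real.rpow_pos_of_pos hC00 _, ?_⟩
  intro A K S b hb hA N hN ι _ ω β s f hω hsep hcard hf hs hβ p hp
  have hA0 : (0 : ℝ) ≤ A := A.2
  have hK0 : (0 : ℝ) ≤ K := K.2
  have hS0 : (0 : ℝ) ≤ S := S.2
  have hN0 : 0 < N := by linarith
  have hc0 : (0 : ℝ) < (Fintype.card ι : ℝ) := lt_of_lt_of_le (by positivity) hcard
  have hne : Nonempty ι := by
    rw [← Fintype.card_pos_iff]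
    exact_mod_cast hc0
  set X : ℝ := 1 + K + A + S with hX
  have hX1 : 1 ≤ X := by rw [hX]; linarith
  set D : ℝ := C0 ^ (1 / q) * X ^ d * N ^ ε with hD
  have hD1 : 1 ≤ D := by
    have h1 : 1 ≤ C0 ^ (1 / q) := Real.one_le_rpow hC1 (by positivity)
    have h2 : 1 ≤ X ^ d := one_le_pow₀ hX1
    have h3 : 1 ≤ N ^ ε := Real.one_le_rpow hN hε.le
    calc (1 : ℝ) = 1 * 1 * 1 := by ring
      _ ≤ C0 ^ (1 / q) * X ^ d * N ^ ε := by gcongr
  have hDq : D ^ q = (C0 * (X ^ d) ^ q * N ^ (ε / 2 * q)) * N ^ (ε / 2 * q) := by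
    rw [hD, Real.mul_rpow (by positivity) (by positivity), Real.mul_rpow (by positivity) (by positivity),
      ← Real.rpow_mul hC00.le, ← Real.rpow_mul hN0.le, one_div_mul_cancel hq0.ne', Real.rpow_one,
      mul_assoc (C0 * (X ^ d) ^ q), ← Real.rpow_add hN0]
    congr 2
    ring
  -- the loss from the decomposition into cells
  have hloss : N ^ (d * (q - 1) / ((k : ℝ) + 1)) ≤ N ^ (ε / 2 * q) := by
    apply Real.rpow_le_rpow_of_exponent_le hN
    have hk0 : (0 : ℝ) < (k : ℝ) + 1 := by positivity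
    rw [div_le_iff₀ hk0]
    have h1 : 4 ≤ ε * ((k : ℝ) + 1) := by
      rw [div_le_iff₀ hε] at hk
      linarith
    have h2 : (d : ℝ) * (q - 1) = 1 + η * q := by linarith
    have h3 : 1 + η * q ≤ 2 * q := by nlinarith
    nlinarith
  set Q : ℝ := E * (X ^ d) ^ q * N ^ (d + 2) * (Fintype.card ι : ℝ) ^ (q - 1 / d) with hQ
  have hQ0 : 0 < Q := by positivity
  have hQi : ∫⁻ y, Fb N ω f (fun i => WithLp.toLp 2 (β i + s i • (-(2 : ℝ) • ω i), s i)) y ^ q ≤
      ENNReal.ofReal (Q * N ^ (ε / 2 * q)) :=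
    (hE A K S b hb hA N hN ι ω β s f hω hsep hf hs hβ).trans
      (ENNReal.ofReal_le_ofReal (mul_le_mul_of_nonneg_left hloss hQ0.le))
  have hNε : 0 < N ^ (ε / 2 * q) := Real.rpow_pos_of_pos hN0 _
  refine compare d hN hq1 (mul_pos hQ0 hNε) hD1 ω f hf _ hQi ?_ ?_ p hp
  · rw [hDq]
    have h1 := arith1 hd0 hE0 (Y := (X ^ d) ^ q) (by positivity) hq1 hηq hηε hN hκ hcard hb0 hC2
    have h2 := mul_le_mul_of_nonneg_right h1 hNε.le
    calc Q * N ^ (ε / 2 * q) * ((1 + (d : ℝ)) ^ (d + 1) * wv d * N ^ (2 * (d + 1))) ^ (q - 1)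
        = Q * (b₀ * N ^ (2 * (d + 1))) ^ (q - 1) * N ^ (ε / 2 * q) := by
          rw [hb₀]; ring
      _ ≤ _ := h2
      _ = _ := by ring
  · rw [hDq]
    have h1 := arith2 hd0 hE0 (Y := (X ^ d) ^ q) (ε := ε / 2) (by positivity) hq1 (by linarith) hN hκ
      hcard hw0 hC3
    have h2 := mul_le_mul_of_nonneg_right h1 hNε.le
    refine h2.trans (le_of_eq ?_)
    ring

end Pool.Agent.Results.MP_ac5134_an.SmoothTranslates
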